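import Pool.Agent.Run7.h229.SG.Iface

/-! TOP (helper183): the topology of the tower. -/

set_option autoImplicit false

open Polynomial Topology Filter

namespace Run7.h183.SG

open Pool.Agent.Run7.h229.SG

theorem basis {W : Type} [Field W] (T : Tower W) (hVM : S_VM) : RingSubgroupsBasis (V T) := by
  obtain ⟨h1, h2, h3⟩ := hVM W T
  refine RingSubgroupsBasis.of_comm _ (fun i j => ⟨max i j, le_inf (h3 _ _ (le_max_left _ _))
    (h3 _ _ (le_max_right _ _))⟩) (fun i => ⟨i, ?_⟩) (fun x i => ?_)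
  · rintro _ ⟨x, hx, y, hy, rfl⟩
    exact h1 i x y hx hy
  · obtain ⟨m, hm⟩ := h2 x i
    exact ⟨m, fun y hy => hm y hy⟩

theorem coeff_mem {W : Type} [Field W] (A : AddSubgroup W) {d : ℕ} (c : Fin d → W)
    (hc : ∀ i, c i ∈ A) (j : ℕ) : (∑ i : Fin d, C (c i) * X ^ (i : ℕ)).coeff j ∈ A := by
  rw [finsetSum_coeff]
  refine A.sum_mem fun i _ => ?_
  rw [coeff_C_mul_X_pow]
  split_ifs
  · exact hc i
  · exact A.zero_mem

theorem monic_mp {W : Type} [Field W] {d : ℕ} (c : Fin d → W) :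
    (monicPoly c).Monic ∧ (monicPoly c).degree = d := by
  have h := degree_sum_fin_lt c
  have hm : (monicPoly c).Monic := by
    unfold monicPoly
    exact monic_X_pow_add h
  refine ⟨hm, ?_⟩
  unfold monicPoly
  rw [degree_add_eq_left_of_degree_lt]
  · exact degree_X_pow d
  · rw [degree_X_pow]
    exact h

theorem t_TOP (hVK : S_VK) (hVM : S_VM) (hVI : S_VI) (hVS : S_VS) (hVN : S_VN) : S_TOP := by
  classical
  intro W _ T
  have hB := basis T hVM
  obtain ⟨h1, h2, h3⟩ := hVM W T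
  let τ : TopologicalSpace W := hB.topology
  have b0 : HasBasis (𝓝 (0 : W)) (fun _ : ℕ => True) fun i => (V T i : Set W) :=
    hB.hasBasis_nhds_zero
  have ba : ∀ a : W, HasBasis (𝓝 a) (fun _ : ℕ => True) fun i => {b | b - a ∈ V T i} :=
    hB.hasBasis_nhds
  have hring : IsTopologicalRing W := hB.toRingFilterBasis.isTopologicalRing
  refine ⟨τ, ⟨?_, ?_, hring, ?_⟩, ?_, ?_⟩
  · -- Hausdorff
    refine IsTopologicalAddGroup.t2Space_of_zero_sep fun x hx => ?_
    obtain ⟨n, hn⟩ := T.exh x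
    refine ⟨V T n, b0.mem_of_mem trivial, fun hxV => hx ?_⟩
    obtain ⟨v, hv, h⟩ := hVK W T n n x hn hxV
    rw [h, Finset.Ico_self, Finset.sum_empty]
  · -- not discrete
    intro hd
    have h4 : ({0} : Set W) ∈ 𝓝 (0 : W) := by
      rw [nhds_discrete]
      exact Filter.mem_pure.2 rfl
    obtain ⟨n, -, hn⟩ := b0.mem_iff.1 h4
    obtain ⟨t, ht, h5⟩ := hVN W T n
    have h6 : t = 0 := hn ht
    apply h5 0 (V T 0).zero_mem
    rw [h6]
    ring
  · -- inversion
    intro a ha
    show Tendsto _ _ _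
    rw [(ba a).tendsto_iff (ba a⁻¹)]
    intro n _
    obtain ⟨n', hn'⟩ := h2 a⁻¹ n
    obtain ⟨m, hm⟩ := h2 a⁻¹ n'
    refine ⟨m, trivial, fun b hb => ?_⟩
    have hb' : b - a ∈ V T m := hb
    obtain ⟨y, hy, hyy⟩ := hVI W T n' _ (hm _ hb')
    show b⁻¹ - a⁻¹ ∈ V T n
    have e1 : b = a * (1 + a⁻¹ * (b - a)) := by
      field_simp
      ring
    have e2 : b⁻¹ = a⁻¹ * (1 + y) := by
      rw [e1, mul_inv]
      congr 1
      exact inv_eq_of_mul_eq_one_right hyy
    rw [e2, show a⁻¹ * (1 + y) - a⁻¹ = a⁻¹ * y by ring]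
    exact hn' y hy
  · -- silver
    intro d q hq a ha U hU
    obtain ⟨n₁, -, hn₁⟩ := (ba a).mem_iff.1 hU
    obtain ⟨hmon, hdeg⟩ := monic_mp q
    obtain ⟨n₀, hn₀⟩ := hVS W T (monicPoly q) hmon hq a ha
    refine ⟨Set.pi Set.univ fun i => {b | b - q i ∈ V T (max n₀ n₁)},
      set_pi_mem_nhds Set.finite_univ fun i _ => (ba (q i)).mem_of_mem trivial, fun p hp => ?_⟩
    have hp' : ∀ i, p i - q i ∈ V T (max n₀ n₁) := fun i => hp i trivial
    obtain ⟨x, hx, hr⟩ := hn₀ (max n₀ n₁) (le_max_left _ _)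
      (∑ i : Fin d, C (p i - q i) * X ^ (i : ℕ)) (coeff_mem _ _ hp') (by
        rw [hdeg]
        exact degree_sum_fin_lt _)
    refine ⟨a + x, hn₁ ?_, ?_⟩
    · show a + x - a ∈ V T n₁
      rw [add_sub_cancel_left]
      exact h3 _ _ (le_max_right _ _) hx
    · have e : monicPoly q + ∑ i : Fin d, C (p i - q i) * X ^ (i : ℕ) = monicPoly p := by
        unfold monicPoly
        rw [add_assoc, ← Finset.sum_add_distrib]
        congr 1
        refine Finset.sum_congr rfl fun i _ => ?_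
        rw [C_sub]
        ring
      rwa [e] at hr
  · -- not gold
    intro hg
    have e : ∀ t : W, monicPoly (![t, 0, 1] : Fin 3 → W) = X ^ 3 + X ^ 2 + C t := by
      intro t
      unfold monicPoly
      rw [Fin.sum_univ_three]
      simp
      ring
    obtain ⟨V', hV', h⟩ := hg 3 ![0, 0, 1] (-1) (by
      rw [e]
      simp only [IsRoot.def, eval_add, eval_pow, eval_X, eval_C]
      ring) (by
      rw [e]
      simp only [derivative_add, derivative_X_pow, derivative_C, eval_add, eval_mul, eval_pow,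
        eval_X, eval_C, eval_zero]
      norm_num) {b | b - (-1) ∈ V T 0} ((ba (-1)).mem_of_mem trivial)
    have hc : Continuous fun t : W => (![t, 0, 1] : Fin 3 → W) := by
      refine continuous_pi fun i => ?_
      fin_cases i
      · exact continuous_id
      · exact continuous_const
      · exact continuous_const
    have h4 : (fun t : W => (![t, 0, 1] : Fin 3 → W)) ⁻¹' V' ∈ 𝓝 (0 : W) :=
      hc.continuousAt.preimage_mem_nhds hV'
    obtain ⟨n, -, hn⟩ := b0.mem_iff.1 h4
    obtain ⟨t, ht, h5⟩ := hVN W T n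
    obtain ⟨r, hr, hroot⟩ := h _ (hn ht)
    have hr' : r - (-1) ∈ V T 0 := hr
    apply h5 _ hr'
    rw [e] at hroot
    simp only [IsRoot.def, eval_add, eval_pow, eval_X, eval_C] at hroot
    rw [show -1 + (r - -1) = r by ring]
    exact hroot

end Run7.h183.SG
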